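import Pool.Agent.T9h75.SO.Spec

/-!
MP_c2284b_lc, SO: pieces `comp` and `sparse`.
-/

set_option autoImplicit false

namespace Pool.Agent.T9h75.SO

open Turing Computability N68a2faeb N793a5b8e Pool.Agent.H583R2
open Pool.Agent.T9h49.SC hiding found act stp st upd badN RK RN KK NN Good
open Pool.Agent.T9h21.UB

/-- a record of the pair `e` before `J` -/
def rcd (e : ℕ) (τ : List Bool) (J : ℕ) : Bool :=
  (List.range J).any (fun j => decide (own j = e) && τ.getD j false)

/-- a conjunction of five tests -/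
def ok5 (o i m n q : ℕ) (c r : Bool) : Bool :=
  decide (o = i) && (decide (m ≤ n) && (c && (decide (q < m) && !r)))

theorem ok5_iff {o i m n q : ℕ} {c r : Bool} : ok5 o i m n q c r = true ↔
    o = i ∧ m ≤ n ∧ c = true ∧ q < m ∧ r = false := by
  unfold ok5
  rw [Bool.and_eq_true, Bool.and_eq_true, Bool.and_eq_true, Bool.and_eq_true, decide_eq_true_eq,
    decide_eq_true_eq, decide_eq_true_eq, Bool.not_eq_true']

theorem pf_ok5 {α : Type} [TEnc α] {o i m n q : α → ℕ} {c r : α → Bool} (ho : PF o) (hi : PF i)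
    (hm : PF m) (hn : PF n) (hq : PF q) (hc : PF c) (hr : PF r) :
    PF (fun a => ok5 (o a) (i a) (m a) (n a) (q a) (c a) (r a)) := by
  unfold ok5
  exact PF.and (PF.natEq ho hi) (PF.and (PF.le hm hn) (PF.and hc (PF.and (PF.lt hq hm)
    (PF.not hr))))

/-- the capped `Q` -/
def QM (e : ℕ) (x : List Bool) (n : ℕ) : ℕ := min (Q e x) (n + 1)

theorem pf_three {α : Type} [TEnc α] {F : ℕ → List Bool → ℕ → ℕ}
    (h1 : PF (fun p : ℕ × List Bool × ℕ => F p.1 p.2.1 p.2.2)) {e n : α → ℕ}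
    {x : α → List Bool} (he : PF e) (hx : PF x) (hn : PF n) :
    PF (fun a => F (e a) (x a) (n a)) := h1.comp (PF.pair he (PF.pair hx hn))

theorem pf_QM (h : S_pf) {α : Type} [TEnc α] {e n : α → ℕ}
    {x : α → List Bool} (he : PF e) (hx : PF x) (hn : PF n) :
    PF (fun a => QM (e a) (x a) (n a)) := pf_three (F := QM) h.2.2.2.1 he hx hn

/-- the capped powers of two -/
def PM (J n : ℕ) : ℕ := min (2 ^ J) (n + 1)

theorem pf_two {α : Type} [TEnc α] {F : ℕ → ℕ → ℕ}
    (h1 : PF (fun p : ℕ × ℕ => F p.1 p.2)) {e n : α → ℕ} (he : PF e) (hn : PF n) :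
    PF (fun a => F (e a) (n a)) := h1.comp (PF.pair he hn)

theorem pf_PM (h : S_pf) {α : Type} [TEnc α] {e n : α → ℕ} (he : PF e) (hn : PF n) :
    PF (fun a => PM (e a) (n a)) := pf_two (F := PM) h.2.2.1 he hn

theorem pf_twoB {α : Type} [TEnc α] {F : ℕ → ℕ → Bool}
    (h1 : PF (fun p : ℕ × ℕ => F p.1 p.2)) {e n : α → ℕ} (he : PF e) (hn : PF n) :
    PF (fun a => F (e a) (n a)) := h1.comp (PF.pair he hn)

/-- the position `J` shows that the instance is valid -/
def okJ (cd : ℕ → ℕ → Bool) (z τ : List Bool) (J : ℕ) : Bool :=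
  ok5 (own J) (iE z) (PM J z.length) z.length (QM (iE z) (iX z) z.length)
    (cd (iE z) (PM J z.length)) (rcd (iE z) τ (J + 1))

/-- validity -/
def vB (cd : ℕ → ℕ → Bool) (z τ : List Bool) : Bool :=
  (List.range τ.length).any (fun J => okJ cd z τ J)

theorem vB_iff (cd : ℕ → ℕ → Bool) (z : List Bool) :
    vB cd z (pr (tt cd) (lg z.length)) = true ↔ Valid cd z := by
  unfold vB Valid
  rw [List.any_eq_true, pr_length]
  constructor
  · rintro ⟨J, hJ, h⟩
    rw [List.mem_range] at hJ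
    have hJ2 := lt_lg.1 hJ
    unfold okJ PM QM at h
    rw [ok5_iff] at h
    obtain ⟨h1, h2, h3, h4, h5⟩ := h
    have e1 : min (2 ^ J) (z.length + 1) = 2 ^ J := min_eq_left (by omega)
    rw [e1] at h3 h4
    refine ⟨J, h1, hJ2, h3, ?_, fun j hj hj2 => ?_⟩
    · rcases le_total (Q (iE z) (iX z)) (z.length + 1) with h | h
      · rwa [min_eq_left h] at h4
      · rw [min_eq_right h] at h4; omega
    · unfold rcd at h5
      rw [List.any_eq_false] at h5
      have h6 := h5 j (List.mem_range.2 (by omega))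
      rw [pr_getD _ (lt_of_le_of_lt hj hJ)] at h6
      simpa [hj2] using h6
  · rintro ⟨J, h1, h2, h3, h4, h5⟩
    have hJ := lt_lg.2 h2
    refine ⟨J, List.mem_range.2 hJ, ?_⟩
    unfold okJ PM QM
    have e1 : min (2 ^ J) (z.length + 1) = 2 ^ J := min_eq_left (by omega)
    rw [e1, ok5_iff]
    refine ⟨h1, h2, h3, ?_, ?_⟩
    · exact lt_of_le_of_lt (min_le_left _ _) h4
    · unfold rcd
      rw [List.any_eq_false]
      intro j hj
      rw [List.mem_range] at hj
      rw [pr_getD _ (by omega)]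
      by_cases hj2 : own j = iE z
      · simp [h5 j (by omega) hj2]
      · simp [hj2]

/-- the input for the verifiers, capped -/
def yC (z τ : List Bool) : List Bool :=
  eP (iX z) (τ.take (lg (tmC (ix (iE z)).2.2 (iX z) z.length)))

/-- verifiers for the language and for its complement -/
def R1 (cd : ℕ → ℕ → Bool) (p : List Bool × List Bool × List Bool) : Bool :=
  vB cd p.1 p.2.2 && accT (ix (iE p.1)).1 (tmC (ix (iE p.1)).2.2 (yC p.1 p.2.2) p.1.length)
    (yC p.1 p.2.2) p.2.1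

def R2 (cd : ℕ → ℕ → Bool) (p : List Bool × List Bool × List Bool) : Bool :=
  !(vB cd p.1 p.2.2) || accT (ix (iE p.1)).2.1 (tmC (ix (iE p.1)).2.2 (yC p.1 p.2.2) p.1.length)
    (yC p.1 p.2.2) p.2.1

section
variable {α : Type} [TEnc α]

theorem pf_yC (h : S_pf) {z τ : α → List Bool} (hz : PF z) (hτ : PF τ) :
    PF (fun a => yC (z a) (τ a)) := by
  unfold yC
  exact pf_eP (pf_iX hz) (PF.take (h.1.comp (pf_tmC (PF.snd' (PF.snd' (pf_ix (pf_iE hz))))
    (pf_iX hz) (PF.length hz))) hτ)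

theorem pf_rcd (h : S_pf) {e J : α → ℕ} {τ : α → List Bool} (he : PF e) (hτ : PF τ) (hJ : PF J) :
    PF (fun a => rcd (e a) (τ a) (J a)) := by
  unfold rcd
  exact PF.any (f := fun a j => decide (own j = e a) && (τ a).getD j false) (PF.range hJ)
    (PF.and (PF.natEq (h.2.1.comp PF.snd) (he.comp PF.fst))
      (PF.listGetD PF.snd (hτ.comp PF.fst) (PF.const false)))

theorem pf_vB (h : S_pf) {cd : ℕ → ℕ → Bool} (hcd : PF (fun p : ℕ × ℕ => cd p.1 p.2))
    {z τ : α → List Bool} (hz : PF z) (hτ : PF τ) : PF (fun a => vB cd (z a) (τ a)) := by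
  unfold vB
  have hz2 : PF (fun p : α × ℕ => z p.1) := hz.comp PF.fst
  have hn2 : PF (fun p : α × ℕ => (z p.1).length) := PF.length hz2
  have h2 : PF (fun p : α × ℕ => PM p.2 (z p.1).length) := pf_PM h PF.snd hn2
  have hQ : PF (fun p : α × ℕ => QM (iE (z p.1)) (iX (z p.1)) (z p.1).length) :=
    pf_QM h (pf_iE hz2) (pf_iX hz2) hn2
  have h3 : PF (fun p : α × ℕ => cd (iE (z p.1)) (PM p.2 (z p.1).length)) :=
    pf_twoB hcd (pf_iE hz2) h2
  have h4 : PF (fun p : α × ℕ => rcd (iE (z p.1)) (τ p.1) (p.2 + 1)) :=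
    pf_rcd h (pf_iE hz2) (hτ.comp PF.fst) (PF.succ PF.snd)
  have h5 : PF (fun p : α × ℕ => own p.2) := h.2.1.comp PF.snd
  refine PF.any (f := fun a J => okJ cd (z a) (τ a) J) (PF.range (PF.length hτ)) ?_
  unfold okJ
  exact pf_ok5 h5 (pf_iE hz2) h2 hn2 hQ h3 h4

end

theorem pf_R1 (h : S_pf) {cd : ℕ → ℕ → Bool} (hcd : PF (fun p : ℕ × ℕ => cd p.1 p.2)) :
    PF (R1 cd) := by
  have hz : PF (fun p : List Bool × List Bool × List Bool => p.1) := PF.fst
  have hτ : PF (fun p : List Bool × List Bool × List Bool => p.2.2) := PF.snd' PF.snd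
  have hw : PF (fun p : List Bool × List Bool × List Bool => p.2.1) := PF.fst' PF.snd
  unfold R1
  exact PF.and (pf_vB h hcd hz hτ) (pf_accT (PF.fst' (pf_ix (pf_iE hz)))
    (pf_tmC (PF.snd' (PF.snd' (pf_ix (pf_iE hz)))) (pf_yC h hz hτ) (PF.length hz))
    (pf_yC h hz hτ) hw)

theorem pf_R2 (h : S_pf) {cd : ℕ → ℕ → Bool} (hcd : PF (fun p : ℕ × ℕ => cd p.1 p.2)) :
    PF (R2 cd) := by
  have hz : PF (fun p : List Bool × List Bool × List Bool => p.1) := PF.fst
  have hτ : PF (fun p : List Bool × List Bool × List Bool => p.2.2) := PF.snd' PF.snd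
  have hw : PF (fun p : List Bool × List Bool × List Bool => p.2.1) := PF.fst' PF.snd
  unfold R2
  exact PF.or (PF.not (pf_vB h hcd hz hτ)) (pf_accT (PF.fst' (PF.snd' (pf_ix (pf_iE hz))))
    (pf_tmC (PF.snd' (PF.snd' (pf_ix (pf_iE hz)))) (pf_yC h hz hτ) (PF.length hz))
    (pf_yC h hz hτ) hw)

theorem valid_Q {cd : ℕ → ℕ → Bool} {z : List Bool} (h : Valid cd z) :
    Q (iE z) (iX z) < z.length := by
  obtain ⟨J, _, h2, _, h4, _⟩ := h
  omega

theorem yC_eq (h : S_pf) {z τ : List Bool} (hQ : Q (iE z) (iX z) < z.length) :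
    yC z τ = yy (iE z) (iX z) τ := by
  have h1 := h.2.2.2.2.1 (iE z) (iX z)
  have h2 : tmC (ix (iE z)).2.2 (iX z) z.length = tm (ix (iE z)).2.2 (iX z) :=
    min_eq_left (by omega)
  unfold yC yy
  rw [h2]

theorem search_yC (h : S_pf) {z τ : List Bool} (hQ : Q (iE z) (iX z) < z.length) (c : Code) :
    (∃ w : List Bool, w.length ≤ z.length ∧
      accT c (tmC (ix (iE z)).2.2 (yC z τ) z.length) (yC z τ) w = true) ↔
      Acc c (ix (iE z)).2.2 (yy (iE z) (iX z) τ) := by
  rw [yC_eq h hQ]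
  exact search_iff ((h.2.2.2.2.2 _ _ _).trans hQ.le)

open Classical in
/-- the complete language -/
noncomputable def KS (cd : ℕ → ℕ → Bool) : DecisionProblem := fun z =>
  decide (∃ w : List Bool, w.length ≤ z.length ∧
    R1 cd (z, w, pr (tt cd) (lg z.length)) = true)

theorem KS_iff (cd : ℕ → ℕ → Bool) (z : List Bool) : KS cd z = true ↔
    ∃ w : List Bool, w.length ≤ z.length ∧ R1 cd (z, w, pr (tt cd) (lg z.length)) = true := by
  simp [KS]

theorem aux1 {A B : Prop} (h : ¬ (A ↔ B)) : ¬ A ↔ B := by tauto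

theorem comp (hm : S_mem) (h : S_pf) (hn : S_nofail) : S_comp := by
  intro cd hcd
  have hK : ∀ z, Valid cd z → (KS cd z = true ↔
      Acc (ix (iE z)).1 (ix (iE z)).2.2 (yy (iE z) (iX z) (pr (tt cd) (lg z.length)))) := by
    intro z hz
    rw [KS_iff, ← search_yC h (valid_Q hz)]
    unfold R1
    simp only [(vB_iff cd z).2 hz, Bool.true_and]
  refine ⟨KS cd, hm (tt cd) (R1 cd) (KS cd) (pf_R1 h hcd) (KS_iff cd),
    hm (tt cd) (R2 cd) _ (pf_R2 h hcd) fun z => ?_, hK⟩
  have hc : (KS cd)ᶜ z = true ↔ ¬ KS cd z = true := by simp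
  rw [hc]
  by_cases hz : Valid cd z
  · rw [hK z hz]
    have h2 := hn cd z hz
    unfold Fail at h2
    have h3 : (∃ w : List Bool, w.length ≤ z.length ∧
        R2 cd (z, w, pr (tt cd) (lg z.length)) = true) ↔
        Acc (ix (iE z)).2.1 (ix (iE z)).2.2 (yy (iE z) (iX z) (pr (tt cd) (lg z.length))) := by
      rw [← search_yC h (valid_Q hz)]
      unfold R2
      simp only [(vB_iff cd z).2 hz, Bool.not_true, Bool.false_or]
    rw [h3]
    exact aux1 h2
  · have hv : vB cd z (pr (tt cd) (lg z.length)) = false := by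
      rw [← Bool.not_eq_true, vB_iff]
      exact hz
    constructor
    · intro _
      refine ⟨[], by simp, ?_⟩
      unfold R2
      simp only [hv, Bool.not_false, Bool.true_or]
    · intro _
      rw [KS_iff]
      rintro ⟨w, _, hw⟩
      unfold R1 at hw
      simp only [hv, Bool.false_and] at hw
      exact absurd hw (by simp)

theorem sparse : S_sparse := by
  classical
  intro cd g hg
  have huniq : ∀ J J', tt cd J = true → tt cd J' = true → own J = own J' → J = J' := by
    have key : ∀ J J', tt cd J = true → tt cd J' = true → own J = own J' → ¬ J < J' := by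
      intro J J' h1 h2 h3 hlt
      unfold tt dec at h2
      rw [decide_eq_true_eq] at h2
      have h4 := h2.2.1 J hlt h3
      rw [pfx_eq, pr_getD _ hlt, h1] at h4
      exact absurd h4 (by simp)
    intro J J' h1 h2 h3
    rcases lt_trichotomy J J' with h | h | h
    · exact absurd h (key J J' h1 h2 h3)
    · exact h
    · exact absurd h (key J' J h2 h1 h3.symm)
  refine ⟨fun i => if h : ∃ J, own J = i ∧ tt cd J = true then 2 ^ (Classical.choose h) else g i,
    fun i => ?_, fun J hJ => ⟨own J, ?_⟩⟩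
  · dsimp only
    split_ifs with h
    · obtain ⟨h1, h2⟩ := Classical.choose_spec h
      unfold tt dec at h2
      rw [decide_eq_true_eq] at h2
      have h3 := hg _ _ h2.1
      exact (congrArg g h1.symm).le.trans h3
    · exact le_rfl
  · have hex : ∃ J', own J' = own J ∧ tt cd J' = true := ⟨J, rfl, hJ⟩
    dsimp only
    rw [dif_pos hex]
    obtain ⟨h1, h2⟩ := Classical.choose_spec hex
    rw [huniq _ _ h2 hJ h1]

end Pool.Agent.T9h75.SO
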