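import Pool.Agent.T9h21.UB.Defs2

/-!
# Complete languages for `NP ∩ coNP` relative to an oracle
-/

set_option autoImplicit false

namespace Pool.Agent.T9h75.SO

open N68a2faeb N793a5b8e Pool.Agent.T9h21.UB

/-- Relative to the oracle `T` the class `NP ∩ coNP` has a complete language `K`, with respect to
polynomial-time many-one reductions which do not use the oracle. -/
def HasComplete (T : DecisionProblem) : Prop :=
  ∃ K ∈ NPRel T, Kᶜ ∈ NPRel T ∧ ∀ L ∈ NPRel T, Lᶜ ∈ NPRel T → ManyOneReducible L K

end Pool.Agent.T9h75.SO
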