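import Pool.Agent.T9h75.SO.Main
import Pool.Agent.T9h75.SO.Defs

/-!
MP_c2284b_lc, SO: the polynomial hierarchy relative to the oracle, and oracles in `NP ∩ coNP`.
-/

set_option autoImplicit false

namespace Pool.Agent.T9h75.SO

open Turing Computability N68a2faeb N793a5b8e Pool.Agent.H583R2
open Pool.Agent.T9h49.SC hiding found act stp st upd badN RK RN KK NN Good
open Pool.Agent.T9h21.UB

/-- the query -/
def qT (k : ℕ) (u : List Bool × List Bool) : List Bool :=
  if decide (min (2 ^ u.2.length) ((u.1.length + 2) ^ k + 1) ≤ (u.1.length + 2) ^ k) then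
    eP (List.replicate (min (2 ^ u.2.length) ((u.1.length + 2) ^ k + 1)) true) u.2
  else []

theorem pf_qT (k : ℕ) : PF (qT k) := by
  have h0 : PF (fun u : List Bool × List Bool => (u.1.length + 2) ^ k) :=
    pf_powK (PF.add (PF.length PF.fst) (PF.const 2)) k
  have h : PF (fun u : List Bool × List Bool =>
      min (2 ^ u.2.length) ((u.1.length + 2) ^ k + 1)) :=
    pf_cexp (PF.length PF.snd) (PF.succ h0)
  exact PF.ite (PF.le h h0) (pf_eP (PF.replicate h (PF.const true)) PF.snd) (PF.const [])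

theorem qT_eq {k : ℕ} {z a : List Bool} (h : 2 ^ a.length ≤ (z.length + 2) ^ k) :
    qT k (z, a) = eP (List.replicate (2 ^ a.length) true) a := by
  have h1 : min (2 ^ a.length) ((z.length + 2) ^ k + 1) = 2 ^ a.length :=
    min_eq_left (by omega)
  unfold qT
  dsimp only
  rw [h1, if_pos (by simpa using h)]

theorem answersT (cd : ℕ → ℕ → Bool) (k : ℕ) (z : List Bool) :
    ∀ n, n ≤ lg ((z.length + 2) ^ k) →
    oracleAnswers (qT k) (DD cd) z n = pr (tt cd) n := by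
  intro n
  induction n with
  | zero => intro _; rfl
  | succ n ih =>
    intro hn
    have h1 := ih (by omega)
    have h2 : 2 ^ n ≤ (z.length + 2) ^ k := lt_lg.mp (by omega)
    have h3 : (pr (tt cd) n).length = n := pr_length _ _
    rw [oracleAnswers, h1, qT_eq (by rw [h3]; exact h2), h3, Pool.Agent.T9h67.SO.DD_query]
    unfold pr
    rw [List.range_succ, List.map_append]
    rfl

/-- reductions to the oracle are reductions to the language of the decisions -/
theorem tr (hsim : S_sim) (hpf : S_pf) (cd : ℕ → ℕ → Bool) (M : DecisionProblem)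
    (h : TuringReducible M (OO (tt cd))) : TuringReducible M (DD cd) := by
  obtain ⟨V, k, hV, hM⟩ := hsim (tt cd) M h
  have hN : PF (fun u : List Bool × List Bool => (u.1.length + 2) ^ k) :=
    pf_powK (PF.add (PF.length PF.fst) (PF.const 2)) k
  have hd : PF (fun u : List Bool × List Bool =>
      V (u.1, u.2.take (lg ((u.1.length + 2) ^ k)))) :=
    hV.comp (PF.pair PF.fst (PF.take (hpf.1.comp hN) PF.snd))
  refine ⟨qT k, _, (Polynomial.X + 2) ^ k, isPolyTimeL_of_pf (pf_qT k), isPolyTime_of_pf2 hd,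
    fun z => ?_⟩
  have e : ((Polynomial.X + 2 : Polynomial ℕ) ^ k).eval z.length = (z.length + 2) ^ k := by simp
  rw [e]
  have h1 : (oracleAnswers (qT k) (DD cd) z ((z.length + 2) ^ k)).take
      (lg ((z.length + 2) ^ k)) = pr (tt cd) (lg ((z.length + 2) ^ k)) := by
    rw [oracleAnswers_eq, answers_take _ _ (Pool.Agent.T9h67.SO.lg_le_self _),
      ← oracleAnswers_eq]
    exact answersT cd k z _ le_rfl
  dsimp only
  rw [h1]
  exact hM z _ le_rfl

/-- the hierarchy relative to the oracle -/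
theorem levels (hsim : S_sim) (hpf : S_pf) (hdd : S_dd) (cd : ℕ → ℕ → Bool)
    (hcd : PF (fun p : ℕ × ℕ => cd p.1 p.2)) (m : ℕ) : ∀ {L : DecisionProblem},
    L ∈ SigmaRel (m + 1) (OO (tt cd)) → L ∈ SigmaP (m + 3) := by
  induction m with
  | zero =>
    intro L hL
    obtain ⟨p, M, hM, hL⟩ := hL
    exact ⟨DD cd, hdd cd hcd, p, M, tr hsim hpf cd M hM, hL⟩
  | succ m ih =>
    intro L hL
    obtain ⟨M, hM, hL⟩ := hL
    exact ⟨M, ih hM, hL⟩

/-- oracles in `NP ∩ coNP` -/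
theorem low {T : DecisionProblem} (hT : T ∈ NP ∩ coNP) : NPRel T = NP :=
  Set.Subset.antisymm (fun _ h => npRel_sub hT h) fun _ h => np_sub_rel h T

theorem low_iff {T : DecisionProblem} (hT : T ∈ NP ∩ coNP) : HasComplete T ↔
    ∃ K ∈ NP ∩ coNP, ∀ L ∈ NP ∩ coNP, ManyOneReducible L K := by
  unfold HasComplete
  rw [low hT]
  constructor
  · rintro ⟨K, h1, h2, h3⟩
    exact ⟨K, ⟨h1, h2⟩, fun L hL => h3 L hL.1 hL.2⟩
  · rintro ⟨K, hK, h⟩
    exact ⟨K, hK.1, hK.2, fun L h1 h2 => h L ⟨h1, h2⟩⟩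

def Main2 : Prop := ∀ g : ℕ → ℕ, Computable g → ∃ (T : DecisionProblem) (s : ℕ → ℕ),
  (∀ i, g i ≤ s i) ∧ (∀ z, T z = true → ∃ i, z = List.replicate (s i) true) ∧
  ((∃ D ∈ SigmaP 2, TuringReducible T D) ∧
    ∀ m, SigmaP (m + 1) ⊆ SigmaRel (m + 1) T ∧ SigmaRel (m + 1) T ⊆ SigmaP (m + 3)) ∧
  HasComplete T ∧
  ({L | TuringReducible L T} = NPRel T ↔ P = NP) ∧
  (T ∈ NP ∩ coNP → ∃ K ∈ NP ∩ coNP, ∀ L ∈ NP ∩ coNP, ManyOneReducible L K)

theorem main2 : Main2 := by
  intro g hg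
  obtain ⟨cd, h1, h2, h3⟩ := exists_clock hg
  have hpf : S_pf := Pool.Agent.T9h95.SO.pf
  have horc : S_orc := Pool.Agent.T9h69.SO.orc
  have hsim : S_sim := Pool.Agent.T9h95.SO.sim
  have hnf : S_nf := Pool.Agent.T9h95.SO.nf hsim
  have hmem : S_mem := Pool.Agent.T9h65.SO.mem horc
  have hcomp : S_comp := comp hmem hpf Pool.Agent.T9h69.SO.nofail
  have hhard : S_hard := Pool.Agent.T9h95.SO.hard hnf hpf Pool.Agent.T9h95.SO.gap
  have hdd : S_dd := Pool.Agent.T9h65.SO.dd hpf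
  have hred : S_red := Pool.Agent.T9h67.SO.red hpf
  have hp1 : S_pnp1 := Pool.Agent.T9h67.SO.pnp1 hsim
  have hp2 : S_pnp2 := Pool.Agent.T9h69.SO.pnp2 hnf horc
  obtain ⟨s, hs1, hs2⟩ := sparse cd g h2
  obtain ⟨K, hK1, hK2, hK3⟩ := hcomp cd h1
  have hH : HasComplete (OO (tt cd)) := ⟨K, hK1, hK2, hhard cd h3 K hK3⟩
  refine ⟨OO (tt cd), s, hs1, fun z hz => ?_, ⟨⟨DD cd, hdd cd h1, hred cd⟩, fun m =>
    ⟨fun L hL => sigma_sub_rel _ hL, fun L hL => levels hsim hpf hdd cd h1 m hL⟩⟩,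
    hH, ⟨?_, ?_⟩, fun hT => (low_iff hT).1 hH⟩
  · have hz2 : ∃ J, z = List.replicate (2 ^ J) true ∧ tt cd J = true := by
      simpa only [OO, decide_eq_true_eq] using hz
    obtain ⟨J, rfl, hJ⟩ := hz2
    obtain ⟨i, hi⟩ := hs2 J hJ
    exact ⟨i, by rw [hi]⟩
  · intro h
    have h4 : ∀ L ∈ NPRel (OO (tt cd)), TuringReducible L (OO (tt cd)) := by
      intro L hL
      rw [← h] at hL
      exact hL
    exact Set.Subset.antisymm (fun L hL => p_sub_np hL) (hp1 _ h4)
  · intro h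
    have h4 : ∀ L ∈ NP, L ∈ P := by
      intro L hL
      rw [h]
      exact hL
    exact Set.Subset.antisymm (fun L hL => turing_sub_npRel hL) (fun L hL => hp2 _ h4 L hL)

end Pool.Agent.T9h75.SO
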