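import Pool.Agent.T9h75.SO.Extra

/-!
MP_c2284b_lc, SO: the oracle is low for the third level of the polynomial hierarchy.
-/

set_option autoImplicit false

namespace Pool.Agent.T9h75.SO

open Turing Computability N68a2faeb N793a5b8e Pool.Agent.H583R2
open Pool.Agent.T9h49.SC hiding found act stp st upd badN RK RN KK NN Good
open Pool.Agent.T9h21.UB

/-- `B` is represented by `V` and the bits -/
def Rep (t : ℕ → Bool) (B V : DecisionProblem) (k : ℕ) : Prop :=
  ∀ (u : List Bool) (N : ℕ), (u.length + 2) ^ k ≤ N → B u = V (eP u (pr t (lg N)))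

theorem tq_le (r : ℕ) (z : List Bool) : tq r (uP z).1 ≤ tq r z := by
  unfold tq tm
  exact Nat.pow_le_pow_left (by have := uP1_le z; omega) _

theorem len_qr (r : ℕ) (x a : List Bool) : (qr r x a).length ≤ tc r x := by
  unfold qr qry
  rw [List.length_take]
  exact min_le_left _ _

/-- Turing reductions and representations -/
theorem repT {t : ℕ → Bool} {A B V : DecisionProblem} {k : ℕ} (hB : Rep t B V k)
    (hA : TuringReducible A B) : ∃ (A' : DecisionProblem) (k' : ℕ),
      TuringReducible A' V ∧ Rep t A A' k' := by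
  obtain ⟨r, rfl⟩ := exists_ΩT hA
  obtain ⟨k', hk'⟩ := pow_pow_le (tx r).2.2.2 k
  have hu : PF (fun u : List Bool × List Bool => (uP u.1).1) := PF.fst' (pf_uP PF.fst)
  have hs : PF (fun u : List Bool × List Bool => (uP u.1).2) := PF.snd' (pf_uP PF.fst)
  refine ⟨fun z => dr r (uP z).1
    (answers (fun a => eP (qr r (uP z).1 a) (uP z).2) V (tq r (uP z).1)), k', ?_, ?_⟩
  · refine ⟨fun u => eP (qr r (uP u.1).1 u.2) (uP u.1).2,
      fun u => dr r (uP u.1).1 (u.2.take (tq r (uP u.1).1)), (Polynomial.X + 2) ^ (tx r).2.2.1,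
      isPolyTimeL_of_pf (pf_eP (pf_qr r hu PF.snd) hs),
      isPolyTime_of_pf2 (pf_dr r hu (PF.take (pf_tq r hu) PF.snd)), fun z => ?_⟩
    have e : ((Polynomial.X + 2 : Polynomial ℕ) ^ (tx r).2.2.1).eval z.length = tq r z := by
      unfold tq tm
      simp
    rw [e, oracleAnswers_eq]
    dsimp only
    rw [answers_take _ _ (tq_le r z)]
  · intro y N hN
    rw [ΩT_eq]
    simp only [uP_eP]
    congr 1
    generalize tq r y = n
    induction n with
    | zero => rfl
    | succ n ih =>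
      rw [answers, answers, ← ih]
      congr 2
      refine hB _ N (le_trans (Nat.pow_le_pow_left ?_ _) ((hk' y.length).trans hN))
      have h1 := len_qr r y (answers (qr r y) B n)
      unfold tc tm at h1
      omega

/-- `NP` and representations -/
theorem repN {t : ℕ → Bool} {L B V : DecisionProblem} {k : ℕ} (hB : Rep t B V k)
    (hL : L ∈ NPRel B) : ∃ (L' : DecisionProblem) (k' : ℕ), L' ∈ NPRel V ∧ Rep t L L' k' := by
  classical
  obtain ⟨p, M, hM, hLM⟩ := mem_npRel.mp hL
  obtain ⟨M', k0, hM', hrep⟩ := repT hB hM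
  obtain ⟨a, ha⟩ := poly_le p
  obtain ⟨c, hc⟩ := pow_pow_le (a + 3) k0
  have hx : PF (fun z : List Bool => (uP z).1) := PF.fst' (pf_uP PF.id)
  obtain ⟨q, hq⟩ := poly_of_pb (pb_eval hx p)
  have h1 : PF (fun y : List Bool => uP (uP y).1) := pf_uP (PF.fst' (pf_uP PF.id))
  refine ⟨fun z => decide (∃ w : List Bool, w.length ≤ p.eval (uP z).1.length ∧
    M' (eP (eP (uP z).1 w) (uP z).2) = true), c, ?_, ?_⟩
  · rw [mem_npRel]
    refine ⟨q, fun y => M' (eP (eP (uP (uP y).1).1
      ((uP y).2.take (p.eval (uP (uP y).1).1.length))) (uP (uP y).1).2),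
      turing_comp ⟨fun y => eP (eP (uP (uP y).1).1
      ((uP y).2.take (p.eval (uP (uP y).1).1.length))) (uP (uP y).1).2,
      isPolyTime_of_pf (pf_eP (pf_eP (PF.fst' h1) (PF.take (pf_eval (PF.length (PF.fst' h1)) p)
        (PF.snd' (pf_uP PF.id)))) (PF.snd' h1)), fun _ => rfl⟩ hM', fun z => ?_⟩
    rw [decide_eq_true_eq]
    simp only [uP_eP]
    constructor
    · rintro ⟨w, hw, hw'⟩
      exact ⟨w, hw.trans (hq z), by rwa [List.take_of_length_le hw]⟩
    · rintro ⟨w, _, hw'⟩
      exact ⟨_, by rw [List.length_take]; exact min_le_left _ _, hw'⟩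
  · intro x N hN
    rw [Bool.eq_iff_iff, decide_eq_true_eq, hLM x]
    simp only [uP_eP]
    refine exists_congr fun w => and_congr_right fun hw => ?_
    rw [hrep (eP x w) N]
    refine le_trans ?_ hN
    refine le_trans (Nat.pow_le_pow_left ?_ _) (hc x.length)
    rw [eP_length]
    have h1 := ha x.length
    have h2 : 1 ≤ (x.length + 2) ^ a := Nat.one_le_pow _ _ (by omega)
    have h3 : (x.length + 2) ^ (a + 3) = (x.length + 2) ^ a * ((x.length + 2) ^ 3) := pow_add _ _ _
    rw [h3]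
    generalize (x.length + 2) ^ a = X at *
    generalize x.length = n at *
    have h4 : 5 * n + 1 + 3 * X ≤ X * (n + 2) ^ 3 := by
      have h5 : (n + 2) ^ 3 = n ^ 3 + 6 * n ^ 2 + 12 * n + 8 := by ring
      rw [h5]
      nlinarith [Nat.mul_le_mul_right (n ^ 3 + 6 * n ^ 2 + 12 * n + 5) h2, Nat.zero_le (n ^ 3),
        Nat.zero_le (n ^ 2)]
    omega

/-- two phases: first the bits, then the reduction -/
theorem two {t : ℕ → Bool} {A B V D E : DecisionProblem} {k : ℕ} (hlg : PF lg)
    (hB : Rep t B V k)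
    (hD : ∀ n, D (eP (List.replicate (2 ^ n) true) (pr t n)) = t n)
    (hV : ManyOneReducible V E) (hDE : ManyOneReducible D E)
    (hA : TuringReducible A B) : TuringReducible A E := by
  obtain ⟨r, rfl⟩ := exists_ΩT hA
  obtain ⟨f, hf, hfV⟩ := hV
  obtain ⟨g, hg, hgD⟩ := hDE
  have hf' := pf_of_isPolyTime hf
  have hg' := pf_of_isPolyTime hg
  have hW : PF (fun u : List Bool × List Bool => tw k r u.1) := pf_tw k r PF.fst
  have hl : PF (fun u : List Bool × List Bool => lg (tw k r u.1)) := hlg.comp hW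
  have hq : PF (fun u : List Bool × List Bool =>
      if decide (u.2.length + 1 ≤ lg (tw k r u.1)) then
        g (eP (List.replicate (min (2 ^ u.2.length) (tw k r u.1 + 1)) true) u.2)
      else f (eP (qr r u.1 (u.2.drop (lg (tw k r u.1)))) (u.2.take (lg (tw k r u.1))))) := by
    refine PF.ite (PF.le (PF.succ (PF.length PF.snd)) hl) (hg'.comp (pf_eP
      (PF.replicate (pf_cexp (PF.length PF.snd) (PF.succ hW)) (PF.const true)) PF.snd))
      (hf'.comp (pf_eP (pf_qr r PF.fst (PF.drop hl PF.snd)) (PF.take hl PF.snd)))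
  have hd : PF (fun u : List Bool × List Bool =>
      dr r u.1 ((u.2.drop (lg (tw k r u.1))).take (tq r u.1))) :=
    pf_dr r PF.fst (PF.take (pf_tq r PF.fst) (PF.drop hl PF.snd))
  refine ⟨_, _, ((Polynomial.X + 2) ^ (tx r).2.2.2 + 2) ^ k + (Polynomial.X + 2) ^ (tx r).2.2.1,
    isPolyTimeL_of_pf hq, isPolyTime_of_pf2 hd, fun y => ?_⟩
  have e : (((Polynomial.X + 2) ^ (tx r).2.2.2 + 2 : Polynomial ℕ) ^ k +
      (Polynomial.X + 2) ^ (tx r).2.2.1).eval y.length = tw k r y + tq r y := by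
    unfold tw tc tq tm
    simp
  rw [e, oracleAnswers_eq]
  dsimp only
  set ℓ := lg (tw k r y) with hℓ
  set Q' : List Bool → List Bool := fun a =>
    if decide (a.length + 1 ≤ ℓ) then
        g (eP (List.replicate (min (2 ^ a.length) (tw k r y + 1)) true) a)
      else f (eP (qr r y (a.drop ℓ)) (a.take ℓ)) with hQ'
  -- the first phase
  have h1 : ∀ n, n ≤ ℓ → answers Q' E n = pr t n := by
    intro n
    induction n with
    | zero => intro _; rfl
    | succ n ih =>
      intro hn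
      have h2 := ih (by omega)
      have h3 : (pr t n).length = n := pr_length _ _
      have h4 : 2 ^ n ≤ tw k r y := lt_lg.mp (by omega)
      have h5 : min (2 ^ n) (tw k r y + 1) = 2 ^ n := min_eq_left (by omega)
      rw [answers, h2]
      have h6 : Q' (pr t n) = g (eP (List.replicate (2 ^ n) true) (pr t n)) := by
        rw [hQ']
        dsimp only
        rw [h3, h5, if_pos (by simpa using hn)]
      rw [h6, ← hgD, hD]
      unfold pr
      rw [List.range_succ, List.map_append]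
      rfl
  -- the second phase
  have h2 : ∀ m, answers Q' E (ℓ + m) = pr t ℓ ++ answers (qr r y) B m := by
    intro m
    induction m with
    | zero => rw [Nat.add_zero, h1 ℓ le_rfl, answers, List.append_nil]
    | succ m ih =>
      have h3 : (pr t ℓ).length = ℓ := pr_length _ _
      rw [← Nat.add_assoc, answers, ih, answers]
      have h4 : Q' (pr t ℓ ++ answers (qr r y) B m) =
          f (eP (qr r y (answers (qr r y) B m)) (pr t ℓ)) := by
        rw [hQ']
        dsimp only
        rw [List.length_append, h3, answers_length, if_neg (by simp),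
          List.drop_left' h3, List.take_left' h3]
      rw [h4, ← hfV, ← hB _ (tw k r y), List.append_assoc]
      unfold tw
      exact Nat.pow_le_pow_left (by have := len_qr r y (answers (qr r y) B m); omega) _
  have h3 : ℓ + tq r y ≤ tw k r y + tq r y := by
    have := Pool.Agent.T9h67.SO.lg_le_self (tw k r y)
    omega
  have h4 : ((answers Q' E (tw k r y + tq r y)).drop ℓ).take (tq r y) =
      answers (qr r y) B (tq r y) := by
    have h5 : (answers Q' E (tw k r y + tq r y)).take (ℓ + tq r y) =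
        pr t ℓ ++ answers (qr r y) B (tq r y) := by
      rw [answers_take _ _ h3, h2]
    rw [List.take_drop, h5]
    exact List.drop_left' (pr_length _ _)
  rw [h4, ΩT_eq]

/-- the second level relative to the oracle -/
theorem level2 (hnf : S_nf) {t : ℕ → Bool} {L : DecisionProblem}
    (hL : L ∈ SigmaRel 2 (OO t)) : ∃ (V : DecisionProblem) (k : ℕ), V ∈ SigmaP 2 ∧
      Rep t L V k := by
  obtain ⟨M, hM, hL⟩ := hL
  obtain ⟨L₁, k₁, h1, h2⟩ := hnf t M hM
  obtain ⟨V, k, h3, h4⟩ := repN (k := k₁) h2 hL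
  exact ⟨V, k, ⟨L₁, np_sub_rel h1 _, h3⟩, h4⟩

/-- the second level relative to the oracle is in the class `Δ₃` -/
theorem delta (hnf : S_nf) (hlg : PF lg) {t : ℕ → Bool} {D : DecisionProblem} (hD2 : D ∈ SigmaP 2)
    (hD : ∀ n, D (eP (List.replicate (2 ^ n) true) (pr t n)) = t n) {A B : DecisionProblem}
    (hB : B ∈ SigmaRel 2 (OO t)) (hA : TuringReducible A B) :
    TuringReducible A (J^[2] emp) := by
  obtain ⟨V, k, hV, hrep⟩ := level2 hnf hB
  exact two hlg hrep hD (sigma_J hV) (sigma_J hD2) hA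

/-- from the third level on the oracle changes nothing -/
theorem levels3 (hnf : S_nf) (hlg : PF lg) {t : ℕ → Bool} {D : DecisionProblem}
    (hD2 : D ∈ SigmaP 2)
    (hD : ∀ n, D (eP (List.replicate (2 ^ n) true) (pr t n)) = t n) (m : ℕ) :
    SigmaRel (m + 3) (OO t) = SigmaP (m + 3) := by
  refine Set.Subset.antisymm ?_ fun L hL => sigma_sub_rel _ hL
  induction m with
  | zero =>
    rintro L ⟨M, hM, p, A, hA, hL⟩
    exact ⟨J^[2] emp, J_sigma 1, p, A, delta hnf hlg hD2 hD hM hA, hL⟩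
  | succ m ih =>
    rintro L ⟨M, hM, hL⟩
    exact ⟨M, ih hM, hL⟩

def Main3 : Prop := ∀ g : ℕ → ℕ, Computable g → ∃ (T : DecisionProblem) (s : ℕ → ℕ),
  (∀ i, g i ≤ s i) ∧ (∀ z, T z = true → ∃ i, z = List.replicate (s i) true) ∧
  ((∃ D ∈ SigmaP 2, TuringReducible T D) ∧
    (∀ A B, B ∈ SigmaRel 2 T → TuringReducible A B → ∃ D ∈ SigmaP 2, TuringReducible A D) ∧
    ∀ m, SigmaRel (m + 3) T = SigmaP (m + 3)) ∧
  HasComplete T ∧
  ({L | TuringReducible L T} = NPRel T ↔ P = NP)

theorem main3 : Main3 := by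
  intro g hg
  obtain ⟨cd, h1, h2, h3⟩ := exists_clock hg
  have hpf : S_pf := Pool.Agent.T9h95.SO.pf
  have horc : S_orc := Pool.Agent.T9h69.SO.orc
  have hsim : S_sim := Pool.Agent.T9h95.SO.sim
  have hnf : S_nf := Pool.Agent.T9h95.SO.nf hsim
  have hmem : S_mem := Pool.Agent.T9h65.SO.mem horc
  have hcomp : S_comp := comp hmem hpf Pool.Agent.T9h69.SO.nofail
  have hhard : S_hard := Pool.Agent.T9h95.SO.hard hnf hpf Pool.Agent.T9h95.SO.gap
  have hdd : S_dd := Pool.Agent.T9h65.SO.dd hpf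
  have hred : S_red := Pool.Agent.T9h67.SO.red hpf
  have hp1 : S_pnp1 := Pool.Agent.T9h67.SO.pnp1 hsim
  have hp2 : S_pnp2 := Pool.Agent.T9h69.SO.pnp2 hnf horc
  obtain ⟨s, hs1, hs2⟩ := sparse cd g h2
  obtain ⟨K, hK1, hK2, hK3⟩ := hcomp cd h1
  have hH : HasComplete (OO (tt cd)) := ⟨K, hK1, hK2, hhard cd h3 K hK3⟩
  refine ⟨OO (tt cd), s, hs1, fun z hz => ?_, ⟨⟨DD cd, hdd cd h1, hred cd⟩,
    fun A B hB hA => ⟨_, J_sigma 1,
      delta hnf hpf.1 (hdd cd h1) (Pool.Agent.T9h67.SO.DD_query cd) hB hA⟩,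
    levels3 hnf hpf.1 (hdd cd h1) (Pool.Agent.T9h67.SO.DD_query cd)⟩, hH, ⟨?_, ?_⟩⟩
  · have hz2 : ∃ J, z = List.replicate (2 ^ J) true ∧ tt cd J = true := by
      simpa only [OO, decide_eq_true_eq] using hz
    obtain ⟨J, rfl, hJ⟩ := hz2
    obtain ⟨i, hi⟩ := hs2 J hJ
    exact ⟨i, by rw [hi]⟩
  · intro h
    have h4 : ∀ L ∈ NPRel (OO (tt cd)), TuringReducible L (OO (tt cd)) := by
      intro L hL
      rw [← h] at hL
      exact hL
    exact Set.Subset.antisymm (fun L hL => p_sub_np hL) (hp1 _ h4)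
  · intro h
    have h4 : ∀ L ∈ NP, L ∈ P := by
      intro L hL
      rw [h]
      exact hL
    exact Set.Subset.antisymm (fun L hL => turing_sub_npRel hL) (fun L hL => hp2 _ h4 L hL)

end Pool.Agent.T9h75.SO
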