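import Pool.Agent.T9h75.SO.Comp
import Pool.Agent.T9h95.SO.Gap
import Pool.Agent.T9h95.SO.Hard
import Pool.Agent.T9h95.SO.Sim
import Pool.Agent.T9h95.SO.Pf
import Pool.Agent.T9h69.SO.NoFail
import Pool.Agent.T9h69.SO.Pnp2
import Pool.Agent.T9h69.SO.Orc
import Pool.Agent.T9h67.SO.Red
import Pool.Agent.T9h67.SO.Pnp1
import Pool.Agent.T9h65.SO.Mem
import Pool.Agent.T9h65.SO.Dd

/-!
MP_c2284b_lc, SO: assembly.
-/

set_option autoImplicit false

namespace Pool.Agent.T9h75.SO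

open Turing Computability N68a2faeb N793a5b8e Pool.Agent.H583R2
open Pool.Agent.T9h49.SC hiding found act stp st upd badN RK RN KK NN Good
open Pool.Agent.T9h21.UB

/-- `P` relative to `B` is contained in `NP` relative to `B` -/
theorem turing_sub_npRel {L B : DecisionProblem} (h : TuringReducible L B) : L ∈ NPRel B := by
  rw [mem_npRel]
  refine ⟨0, fun y => L (uP y).1, turing_comp ⟨fun y => (uP y).1,
    isPolyTime_of_pf (PF.fst' (pf_uP PF.id)), fun _ => rfl⟩ h, fun x => ?_⟩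
  simp only [uP_eP]
  constructor
  · intro hx
    exact ⟨[], by simp, hx⟩
  · rintro ⟨_, _, hx⟩
    exact hx

/-- `P` is contained in `NP` -/
theorem p_sub_np {L : DecisionProblem} (h : L ∈ P) : L ∈ NP :=
  mem_np_of (R := fun q => L q.1) (((Pool.Agent.T9h69.SO.pf_of_p h)).comp PF.fst) (b := fun _ => 0)
    (PB.const 0) (fun _ _ h => h) fun _ h => ⟨[], by simp, h⟩

theorem main : Main := by
  intro g hg
  obtain ⟨cd, h1, h2, h3⟩ := exists_clock hg
  have hpf : S_pf := Pool.Agent.T9h95.SO.pf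
  have horc : S_orc := Pool.Agent.T9h69.SO.orc
  have hsim : S_sim := Pool.Agent.T9h95.SO.sim
  have hnf : S_nf := Pool.Agent.T9h95.SO.nf hsim
  have hmem : S_mem := Pool.Agent.T9h65.SO.mem horc
  have hcomp : S_comp := comp hmem hpf Pool.Agent.T9h69.SO.nofail
  have hhard : S_hard := Pool.Agent.T9h95.SO.hard hnf hpf Pool.Agent.T9h95.SO.gap
  have hdd : S_dd := Pool.Agent.T9h65.SO.dd hpf
  have hred : S_red := Pool.Agent.T9h67.SO.red hpf
  have hp1 : S_pnp1 := Pool.Agent.T9h67.SO.pnp1 hsim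
  have hp2 : S_pnp2 := Pool.Agent.T9h69.SO.pnp2 hnf horc
  obtain ⟨s, hs1, hs2⟩ := sparse cd g h2
  obtain ⟨K, hK1, hK2, hK3⟩ := hcomp cd h1
  refine ⟨OO (tt cd), s, hs1, fun z hz => ?_, ⟨DD cd, hdd cd h1, hred cd⟩,
    ⟨K, hK1, hK2, hhard cd h3 K hK3⟩, ?_, ?_⟩
  · have hz2 : ∃ J, z = List.replicate (2 ^ J) true ∧ tt cd J = true := by
      simpa only [OO, decide_eq_true_eq] using hz
    obtain ⟨J, rfl, hJ⟩ := hz2
    obtain ⟨i, hi⟩ := hs2 J hJ
    exact ⟨i, by rw [hi]⟩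
  · intro h
    have h4 : ∀ L ∈ NPRel (OO (tt cd)), TuringReducible L (OO (tt cd)) := by
      intro L hL
      rw [← h] at hL
      exact hL
    exact Set.Subset.antisymm (fun L hL => p_sub_np hL) (hp1 _ h4)
  · intro h
    have h4 : ∀ L ∈ NP, L ∈ P := by
      intro L hL
      rw [h]
      exact hL
    exact Set.Subset.antisymm (fun L hL => turing_sub_npRel hL) (fun L hL => hp2 _ h4 L hL)

end Pool.Agent.T9h75.SO
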