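import Pool.Agent.T9h21.UB.High
import Pool.Agent.T9h49.SC.Comp

/-!
# MP_c2284b_lc: a very sparse oracle relative to which `NP ∩ coNP` has a complete language

`t : ℕ → Bool` is a sequence of bits, `OO t = {1 ^ (2 ^ J) : t J}` is the oracle. The bits known at the
length `n` are `pr t (lg n)`, the `t J` with `2 ^ J ≤ n`.

The sequence `tt cd` : the position `J` is owned by the pair `own J` of clocked verifiers; `tt cd J` is
true iff the pair is switched on (`cd (own J) (2 ^ J)`), it has no record yet (no `j < J` with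
`own j = own J`, `tt j`), and it fails on an input `x` with `Q x < 2 ^ J` (all queries on this input are
shorter than `2 ^ J`). So every pair has at most one record.
-/

set_option autoImplicit false

namespace Pool.Agent.T9h75.SO

open Turing Computability N68a2faeb N793a5b8e Pool.Agent.H583R2
open Pool.Agent.T9h49.SC hiding found act stp st upd badN RK RN KK NN Good
open Pool.Agent.T9h21.UB

/-- the number of `J` with `2 ^ J ≤ b` -/
def lg (b : ℕ) : ℕ := Nat.size b

theorem lt_lg {J b : ℕ} : J < lg b ↔ 2 ^ J ≤ b := Nat.lt_size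

/-- the first `m` bits -/
def pr (t : ℕ → Bool) (m : ℕ) : List Bool := (List.range m).map t

open Classical in
/-- the oracle -/
noncomputable def OO (t : ℕ → Bool) : DecisionProblem := fun z =>
  decide (∃ J, z = List.replicate (2 ^ J) true ∧ t J = true)

/-- owner of the position `J` (`J = s² + r`, `0 ≤ r ≤ 2 s`, is owned by `r`) -/
def own (J : ℕ) : ℕ := J - Nat.sqrt J * Nat.sqrt J

/-- the input for the verifiers: `x` and the part of the oracle below `tm k x` -/
def yy (e : ℕ) (x τ : List Bool) : List Bool := eP x (τ.take (lg (tm (ix e).2.2 x)))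

/-- a bound for `|x|`, for `tm k x` and for the clock of the verifiers on `yy e x τ` -/
def Q (e : ℕ) (x : List Bool) : ℕ :=
  x.length + (6 * x.length + 3 + 3 * lg (tm (ix e).2.2 x)) ^ (ix e).2.2

/-- the pair `e` fails on `x` -/
def Fail (e : ℕ) (x τ : List Bool) : Prop :=
  Acc (ix e).1 (ix e).2.2 (yy e x τ) ↔ Acc (ix e).2.1 (ix e).2.2 (yy e x τ)

open Classical in
/-- decision about the bit `J`, given the earlier bits `τ` -/
noncomputable def dec (cd : ℕ → ℕ → Bool) (J : ℕ) (τ : List Bool) : Bool :=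
  decide (cd (own J) (2 ^ J) = true ∧ (∀ j, j < J → own j = own J → τ.getD j false = false) ∧
    ∃ x : List Bool, Q (own J) x < 2 ^ J ∧ Fail (own J) x τ)

/-- the first `J` bits -/
noncomputable def pfx (cd : ℕ → ℕ → Bool) : ℕ → List Bool
  | 0 => []
  | J + 1 => pfx cd J ++ [dec cd J (pfx cd J)]

/-- the sequence -/
noncomputable def tt (cd : ℕ → ℕ → Bool) (J : ℕ) : Bool := dec cd J (pfx cd J)

theorem pfx_eq (cd : ℕ → ℕ → Bool) (J : ℕ) : pfx cd J = pr (tt cd) J := by
  induction J with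
  | zero => rfl
  | succ J ih =>
    have h1 : pr (tt cd) (J + 1) = pr (tt cd) J ++ [tt cd J] := by
      unfold pr
      rw [List.range_succ, List.map_append]
      rfl
    rw [h1, ← ih]
    rfl

theorem pr_length (t : ℕ → Bool) (m : ℕ) : (pr t m).length = m := by simp [pr]

theorem pr_getD (t : ℕ → Bool) {m j : ℕ} (h : j < m) : (pr t m).getD j false = t j := by
  simp [pr, List.getD_eq_getElem?_getD, h]

theorem pr_take (t : ℕ → Bool) {m n : ℕ} (h : m ≤ n) : (pr t n).take m = pr t m := by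
  unfold pr
  rw [← List.map_take, List.take_range, min_eq_left h]

/-! ## Generic pieces (any sequence `t`) -/

/-- PIECE `sim`: Turing reductions to `OO t` are polynomial-time functions of the input and of the
bits. Iterate with the oracle `z ↦ z = 1 ^ (2 ^ J)`, `τ.getD J` for some `J < τ.length` (`pf_run`,
`ask_total`, `exists_ΩT` or `pf_of_isPolyTimeL` and `oracleAnswers_eq`); the queries have polynomial
length. -/
def S_sim : Prop := ∀ (t : ℕ → Bool) (M : DecisionProblem), TuringReducible M (OO t) →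
  ∃ (V : List Bool × List Bool → Bool) (k : ℕ), PF V ∧
    ∀ (v : List Bool) (N : ℕ), (v.length + 2) ^ k ≤ N → M v = V (v, pr t (lg N))

/-- PIECE `orc`: conversely. The query number `j` is `1 ^ (2 ^ j)` if `2 ^ j ≤ (|v| + 2) ^ k`, and `[]`
otherwise (`OO t [] = false`). -/
def S_orc : Prop := ∀ (t : ℕ → Bool) (V : List Bool × List Bool → Bool) (k : ℕ), PF V →
  TuringReducible (fun v => V (v, pr t (lg ((v.length + 2) ^ k)))) (OO t)

/-- PIECE `nf`: normal form of `NP` relative to `OO t`.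
`L' (eP x τ) = ∃ w, |w| ≤ p |x|, V (eP x w, τ)`; `mem_npRel`, `mem_np_of`. -/
def S_nf : Prop := ∀ (t : ℕ → Bool) (L : DecisionProblem), L ∈ NPRel (OO t) →
  ∃ (L' : DecisionProblem) (k : ℕ), L' ∈ NP ∧
    ∀ (x : List Bool) (N : ℕ), (x.length + 2) ^ k ≤ N → L x = L' (eP x (pr t (lg N)))

/-- PIECE `mem`: membership in `NP` relative to `OO t`. -/
def S_mem : Prop := ∀ (t : ℕ → Bool) (R : List Bool × List Bool × List Bool → Bool)
  (L : DecisionProblem), PF R →
  (∀ z, L z = true ↔ ∃ w : List Bool, w.length ≤ z.length ∧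
    R (z, w, pr t (lg z.length)) = true) → L ∈ NPRel (OO t)

/-- PIECE `pnp1` (from `S_sim`): if `NP` relative to `OO t` is `P` relative to `OO t`, then
`NP = P`. For `L ∈ NP` with verifier `R`, the language of all `eP x u`, `u` a prefix of a certificate
of `x`, is `V (·, pr t _)`. For all `τ = str i`, `i < 2 ^ (ℓ + 1) ≤ 4 N`, build a certificate bit by bit
with `V (·, τ)` and check it with `R`. -/
def S_pnp1 : Prop := ∀ (t : ℕ → Bool), (∀ L ∈ NPRel (OO t), TuringReducible L (OO t)) →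
  ∀ L ∈ NP, L ∈ P

/-- PIECE `pnp2` (from `S_nf`, `S_orc`). -/
def S_pnp2 : Prop := ∀ (t : ℕ → Bool), (∀ L ∈ NP, L ∈ P) →
  ∀ L ∈ NPRel (OO t), TuringReducible L (OO t)

/-! ## Polynomial time -/

/-- PIECE `pf`: `lg`, `own`, the capped powers of two, the capped `Q` (`pf_tmC`, `pf_cpow`,
`pf_sqrt`; if `tm k x > n` then `Q e x > n`, as `tm k x ≤ Q e x`). -/
def S_pf : Prop :=
  PF lg ∧ PF own ∧ PF (fun p : ℕ × ℕ => min (2 ^ p.1) (p.2 + 1)) ∧
    PF (fun p : ℕ × List Bool × ℕ => min (Q p.1 p.2.1) (p.2.2 + 1)) ∧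
    (∀ e x, tm (ix e).2.2 x ≤ Q e x) ∧
    ∀ e x τ, tm (ix e).2.2 (yy e x τ) ≤ Q e x

/-! ## The complete language -/

/-- valid instances -/
def Valid (cd : ℕ → ℕ → Bool) (z : List Bool) : Prop :=
  ∃ J, own J = iE z ∧ 2 ^ J ≤ z.length ∧ cd (iE z) (2 ^ J) = true ∧ Q (iE z) (iX z) < 2 ^ J ∧
    ∀ j, j ≤ J → own j = iE z → tt cd j = false

/-- PIECE `nofail`: the pair of a valid instance does not fail at its input (otherwise
`tt cd J = true`; `pr_take`, `tm ≤ Q < 2 ^ J`). -/
def S_nofail : Prop := ∀ (cd : ℕ → ℕ → Bool) (z : List Bool), Valid cd z →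
  ¬ Fail (iE z) (iX z) (pr (tt cd) (lg z.length))

/-- PIECE `comp` (from `S_mem`, `S_pf`, `S_nofail`): the complete language. -/
def S_comp : Prop := ∀ cd : ℕ → ℕ → Bool, PF (fun p : ℕ × ℕ => cd p.1 p.2) →
  ∃ K : DecisionProblem, K ∈ NPRel (OO (tt cd)) ∧ Kᶜ ∈ NPRel (OO (tt cd)) ∧
    ∀ z, Valid cd z → (K z = true ↔
      Acc (ix (iE z)).1 (ix (iE z)).2.2 (yy (iE z) (iX z) (pr (tt cd) (lg z.length))))

/-- PIECE `gap`: every pair owns positions in all large polynomial ranges. -/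
def S_gap : Prop := ∀ e M : ℕ, 1 ≤ M → ∃ J, own J = e ∧ M < 2 ^ J ∧
  2 ^ J ≤ 4 * M ^ 2 + 2 ^ (e ^ 2 + e)

/-- PIECE `hard` (from `S_nf`, `S_pf`, `S_gap`): `L` and its complement have normal forms with codes
`c₁, c₂` and a common exponent `k` (`np_nf`); the pair `e` with `ix e = (c₁, c₂, k)` never fails and has
no record; the reduction is `x ↦ inst e x N`. -/
def S_hard : Prop := ∀ cd : ℕ → ℕ → Bool, (∀ a, ∃ m₀, ∀ m, m₀ ≤ m → cd a m = true) →
  ∀ K : DecisionProblem, (∀ z, Valid cd z → (K z = true ↔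
      Acc (ix (iE z)).1 (ix (iE z)).2.2 (yy (iE z) (iX z) (pr (tt cd) (lg z.length))))) →
    ∀ L ∈ NPRel (OO (tt cd)), Lᶜ ∈ NPRel (OO (tt cd)) → ManyOneReducible L K

/-! ## Sparseness and complexity of the oracle -/

/-- PIECE `sparse`. -/
def S_sparse : Prop := ∀ (cd : ℕ → ℕ → Bool) (g : ℕ → ℕ), (∀ a m, cd a m = true → g a ≤ m) →
  ∃ s : ℕ → ℕ, (∀ i, g i ≤ s i) ∧ ∀ J, tt cd J = true → ∃ i, s i = 2 ^ J

/-- the decisions as a language -/
noncomputable def DD (cd : ℕ → ℕ → Bool) : DecisionProblem := fun v =>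
  decide (1 ≤ (uP v).1.length) && dec cd (lg (uP v).1.length - 1) (uP v).2

/-- PIECE `dd`: `DD cd ∈ NPRel M` for a language `M ∈ NP` (`sigma_one : SigmaP 1 = NP`). With
`J = lg |u| - 1`, `2 ^ J ≤ |u|`: the certificate is `x`; `Acc` of the two codes is asked from
`M q = ∃ w, |w| ≤ |q| ∧ accT (code) (tmC k (iX q) |q|) (iX q) w`, `q = inst (2 e + b) (yy e x τ) (2 ^ J)`
(`search_iff`; `b` tells which of the two codes). -/
def S_dd : Prop := ∀ cd : ℕ → ℕ → Bool, PF (fun p : ℕ × ℕ => cd p.1 p.2) → DD cd ∈ SigmaP 2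

/-- PIECE `red`: the bits are computed one after the other; the query number `j` on the input `z` is
`eP (1 ^ (2 ^ j)) a` if `2 ^ j ≤ |z|` (`a` the answers so far) and `[]` otherwise (`DD cd [] = false`). -/
def S_red : Prop := ∀ cd : ℕ → ℕ → Bool, TuringReducible (OO (tt cd)) (DD cd)

/-! ## The theorem -/

def Main : Prop := ∀ g : ℕ → ℕ, Computable g → ∃ (T : DecisionProblem) (s : ℕ → ℕ),
  (∀ i, g i ≤ s i) ∧ (∀ z, T z = true → ∃ i, z = List.replicate (s i) true) ∧
  (∃ D ∈ SigmaP 2, TuringReducible T D) ∧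
  (∃ K ∈ NPRel T, Kᶜ ∈ NPRel T ∧ ∀ L ∈ NPRel T, Lᶜ ∈ NPRel T → ManyOneReducible L K) ∧
  ({L | TuringReducible L T} = NPRel T ↔ P = NP)

end Pool.Agent.T9h75.SO
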